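import Mathlib

namespace Pool.Agent.MP_8d3206_nt

/-- The error vector `x Θ - y` of the integer point `z = (x, y₁, y₂)`. -/
def errVec (Θ : ℝ × ℝ) (z : ℤ × ℤ × ℤ) : ℝ × ℝ :=
  (z.1 * Θ.1 - z.2.1, z.1 * Θ.2 - z.2.2)

/-- `z` is a best approximation vector of `Θ` for the norm `nrm`. -/
def IsBest (nrm : ℝ × ℝ → ℝ) (Θ : ℝ × ℝ) (z : ℤ × ℤ × ℤ) : Prop :=
  z ≠ 0 ∧ ∀ w : ℤ × ℤ × ℤ, |w.1| ≤ |z.1| → nrm (errVec Θ w) ≤ nrm (errVec Θ z) →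
    w = 0 ∨ w = z ∨ w = -z

/-- `M ν` (for `ν ≥ 1`): the values `|x|` of best approximation vectors, in increasing order. -/
noncomputable def bestDen (nrm : ℝ × ℝ → ℝ) (Θ : ℝ × ℝ) (ν : ℕ) : ℕ :=
  Nat.nth (fun m : ℕ => ∃ z, IsBest nrm Θ z ∧ z.1.natAbs = m) (ν - 1)

/-- `G(Θ) = liminf M_ν ^ (1 / ν)`. -/
noncomputable def growth (nrm : ℝ × ℝ → ℝ) (Θ : ℝ × ℝ) : ℝ :=
  Filter.liminf (fun ν : ℕ => (bestDen nrm Θ ν : ℝ) ^ ((1 : ℝ) / ν)) Filter.atTop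

end Pool.Agent.MP_8d3206_nt
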