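import Mathlib
import Pool.Agent.MP_8d3206_nt.Defs

namespace Pool.Agent.MP_8d3206_nt

lemma phi_bounds {φ : ℝ} (h : φ ^ 3 = φ + 1) :
    (13247 / 10000 : ℝ) < φ ∧ φ < 13248 / 10000 ∧ (17548 / 10000 : ℝ) < φ ^ 2 ∧
      φ ^ 2 < 17551 / 10000 := by
  have h1 : 1 < φ := by
    by_contra hn
    push Not at hn
    rcases le_or_gt φ (-1) with h2 | h2
    · nlinarith [mul_nonneg (by linarith : 0 ≤ -φ) (by nlinarith : 0 ≤ φ ^ 2 - 1)]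
    · nlinarith [mul_nonneg (by linarith : 0 ≤ 1 - φ) (by linarith : 0 ≤ 1 + φ),
        sq_nonneg (φ + 1 / 2), sq_nonneg φ, sq_nonneg (φ - 1 / 2),
        mul_nonneg (by linarith : 0 ≤ 1 - φ) (sq_nonneg (φ + 1 / 2))]
  have h2 : (13247 / 10000 : ℝ) < φ := by
    by_contra hn
    push Not at hn
    nlinarith [mul_nonneg (by linarith : 0 ≤ 13247 / 10000 - φ) (by nlinarith : 0 ≤ φ ^ 2 - 1),
      mul_nonneg (by linarith : 0 ≤ 13247 / 10000 - φ) (by linarith : 0 ≤ φ - 1)]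
  have h3 : φ < 13248 / 10000 := by
    by_contra hn
    push Not at hn
    nlinarith [mul_nonneg (by linarith : 0 ≤ φ - 13248 / 10000) (by nlinarith : 0 ≤ φ ^ 2 - 1),
      mul_nonneg (by linarith : 0 ≤ φ - 13248 / 10000) (by linarith : 0 ≤ φ - 1)]
  refine ⟨h2, h3, by nlinarith, by nlinarith⟩

/-- action of the shift on error vectors -/
def stp (φ : ℝ) (e : ℝ × ℝ) : ℝ × ℝ := (e.2 - φ * e.1, -(φ ^ 2 - 1) * e.1)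

def comb (φ : ℝ) (e : ℝ × ℝ) (p q r : ℤ) : ℝ × ℝ :=
  (p * (stp φ e).1 + q * (stp φ (stp φ e)).1 + r * (stp φ (stp φ (stp φ e))).1,
   p * (stp φ e).2 + q * (stp φ (stp φ e)).2 + r * (stp φ (stp φ (stp φ e))).2)

/-- invariant quadratic form -/
def Qf (φ : ℝ) (e : ℝ × ℝ) : ℝ := e.1 ^ 2 - φ ^ 2 * e.1 * e.2 + φ * e.2 ^ 2

def Nf (φ : ℝ) (p q r : ℝ) : ℝ :=
  p ^ 2 + (φ ^ 2 - 1) * q ^ 2 + (1 + φ - φ ^ 2) * r ^ 2 - φ * p * q + (2 - φ ^ 2) * p * r - q * r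

structure NormOK (nrm : ℝ × ℝ → ℝ) : Prop where
  smul : ∀ c u v : ℝ, nrm (c * u, c * v) = |c| * nrm (u, v)
  fst : ∀ v : ℝ × ℝ, |v.1| ≤ nrm v
  snd : ∀ v : ℝ × ℝ, |v.2| ≤ nrm v
  sq : ∀ v : ℝ × ℝ, nrm v ^ 2 ≤ v.1 ^ 2 + v.2 ^ 2
  contr : ∀ a b c d : ℝ, (a + b ≤ 1 ∧ a - b ≤ 1 ∧ -a + b ≤ 1 ∧ -a - b ≤ 1) →
    (c + d ≤ 1 ∧ c - d ≤ 1 ∧ -c + d ≤ 1 ∧ -c - d ≤ 1) → a ^ 2 + b ^ 2 + c ^ 2 + d ^ 2 ≤ 1 →
    ∀ v : ℝ × ℝ, nrm (a * v.1 + b * v.2, c * v.1 + d * v.2) ≤ nrm v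

lemma Qf_stp {φ : ℝ} (h : φ ^ 3 = φ + 1) (e : ℝ × ℝ) : φ * Qf φ (stp φ e) = Qf φ e := by
  simp only [Qf, stp]
  linear_combination ((1 : ℝ) * e.1 * e.2 * φ ^ 2 + (1 : ℝ) * e.1 ^ 2 + (-1 : ℝ) * e.1 ^ 2 * φ) * h

lemma Qf_comb {φ : ℝ} (h : φ ^ 3 = φ + 1) (e : ℝ × ℝ) (p q r : ℤ) :
    Qf φ (comb φ e p q r) = Nf φ p q r * Qf φ (stp φ e) := by
  simp only [comb]
  generalize stp φ e = f
  simp only [Qf, stp, Nf]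
  linear_combination ((-2 : ℝ) * (p:ℝ) * (q:ℝ) * f.1 * f.2 + (1 : ℝ) * (p:ℝ) * (q:ℝ) * f.1 ^ 2 * φ + (2 : ℝ) * (p:ℝ) * (r:ℝ) * f.1 * f.2 * φ + (-1 : ℝ) * (p:ℝ) * (r:ℝ) * f.1 ^ 2 * φ ^ 2 + (-2 : ℝ) * (q:ℝ) * (r:ℝ) * f.1 * f.2 + (-1 : ℝ) * (q:ℝ) * (r:ℝ) * f.1 * f.2 * φ ^ 2 + (-1 : ℝ) * (q:ℝ) * (r:ℝ) * f.1 ^ 2 + (3 : ℝ) * (q:ℝ) * (r:ℝ) * f.1 ^ 2 * φ + (-1 : ℝ) * (q:ℝ) * (r:ℝ) * f.1 ^ 2 * φ ^ 3 + (1 : ℝ) * (q:ℝ) * (r:ℝ) * f.2 ^ 2 * φ + (2 : ℝ) * (q:ℝ) ^ 2 * f.1 * f.2 * φ + (-1 : ℝ) * (q:ℝ) ^ 2 * f.1 ^ 2 + (-1 : ℝ) * (q:ℝ) ^ 2 * f.2 ^ 2 + (2 : ℝ) * (r:ℝ) ^ 2 * f.1 * f.2 * φ + (-1 : ℝ) * (r:ℝ) ^ 2 * f.1 * f.2 * φ ^ 3 + (1 : ℝ) * (r:ℝ) ^ 2 * f.1 ^ 2 * φ + (-2 : ℝ) * (r:ℝ) ^ 2 * f.1 ^ 2 * φ ^ 2 + (1 : ℝ) * (r:ℝ) ^ 2 * f.1 ^ 2 * φ ^ 4) * h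

lemma Qf_nonneg {φ : ℝ} (h : φ ^ 3 = φ + 1) (e : ℝ × ℝ) : e.1 ^ 2 + e.2 ^ 2 ≤ 4 * Qf φ e := by
  obtain ⟨b1, b2, b3, b4⟩ := phi_bounds h
  simp only [Qf]
  have a1 : φ ^ 2 * e.1 * e.2 ≤ 17551 / 10000 * |e.1 * e.2| := by
    rw [mul_assoc]
    calc φ ^ 2 * (e.1 * e.2) ≤ φ ^ 2 * |e.1 * e.2| :=
          mul_le_mul_of_nonneg_left (le_abs_self _) (by positivity)
      _ ≤ _ := mul_le_mul_of_nonneg_right b4.le (abs_nonneg _)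
  have a2 : 13247 / 10000 * e.2 ^ 2 ≤ φ * e.2 ^ 2 := mul_le_mul_of_nonneg_right b1.le (sq_nonneg _)
  rw [abs_mul] at a1
  have a3 := sq_abs e.1
  have a4 := sq_abs e.2
  nlinarith [sq_nonneg (|e.1| - 117 / 100 * |e.2|)]

lemma Qf_le {φ : ℝ} (h : φ ^ 3 = φ + 1) (e : ℝ × ℝ) (M : ℝ) (h1 : |e.1| ≤ M) (h2 : |e.2| ≤ M) :
    Qf φ e ≤ 408 / 100 * M ^ 2 := by
  obtain ⟨b1, b2, b3, b4⟩ := phi_bounds h
  simp only [Qf]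
  have hM : 0 ≤ M := (abs_nonneg _).trans h1
  have a1 : e.1 ^ 2 ≤ M ^ 2 := by rw [← sq_abs]; gcongr
  have a2 : e.2 ^ 2 ≤ M ^ 2 := by rw [← sq_abs]; gcongr
  have a3 : -(e.1 * e.2) ≤ M ^ 2 := by
    calc -(e.1 * e.2) ≤ |e.1 * e.2| := neg_le_abs _
      _ = |e.1| * |e.2| := abs_mul _ _
      _ ≤ M * M := by gcongr
      _ = M ^ 2 := by ring
  have a4 : φ ^ 2 * (-(e.1 * e.2)) ≤ φ ^ 2 * M ^ 2 := mul_le_mul_of_nonneg_left a3 (by positivity)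
  have a5 : φ * e.2 ^ 2 ≤ φ * M ^ 2 := mul_le_mul_of_nonneg_left a2 (by linarith)
  have a6 : φ * M ^ 2 ≤ 13248 / 10000 * M ^ 2 := mul_le_mul_of_nonneg_right b2.le (sq_nonneg _)
  have a7 : φ ^ 2 * M ^ 2 ≤ 17551 / 10000 * M ^ 2 := mul_le_mul_of_nonneg_right b4.le (sq_nonneg _)
  nlinarith

lemma box {φ : ℝ} (h : φ ^ 3 = φ + 1) (p q r : ℤ) (h1 : |p + q * φ + r * φ ^ 2| < φ + 1)
    (h2 : Nf φ p q r < 435 / 100) : |p| ≤ 4 ∧ |q| ≤ 3 ∧ |r| ≤ 2 := by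
  obtain ⟨b1, b2, b3, b4⟩ := phi_bounds h
  have e : Nf φ p q r = (p - q * φ / 2 + r * (2 - φ ^ 2) / 2) ^ 2 +
      (3 * φ ^ 2 - 4) / 4 * (q - φ * r) ^ 2 := by
    simp only [Nf]
    linear_combination (-(φ * (r : ℝ) ^ 2) + q * r) * h
  set X : ℝ := p - q * φ / 2 + r * (2 - φ ^ 2) / 2 with hX
  set t : ℝ := q - φ * r with ht
  have c1 : 316 / 1000 * t ^ 2 ≤ (3 * φ ^ 2 - 4) / 4 * t ^ 2 :=
    mul_le_mul_of_nonneg_right (by linarith) (sq_nonneg _)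
  have hX1 : |X| < 209 / 100 := by
    apply abs_lt_of_sq_lt_sq _ (by norm_num)
    nlinarith [sq_nonneg t]
  have ht1 : |t| < 372 / 100 := by
    apply abs_lt_of_sq_lt_sq _ (by norm_num)
    nlinarith [sq_nonneg X]
  rw [abs_lt] at h1 hX1 ht1
  have e2 : (p + q * φ + r * φ ^ 2) - X = (3 * φ ^ 2 - 1) * r + 3 / 2 * φ * t := by
    rw [hX, ht]; ring
  have t1 : φ * t < 493 / 100 := by nlinarith [ht1.2]
  have t2 : -(493 / 100) < φ * t := by nlinarith [ht1.1]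
  have hr : |r| ≤ 2 := by
    rw [abs_le]
    constructor
    · by_contra hn
      have : (r : ℝ) ≤ -3 := by exact_mod_cast (by omega : r ≤ -3)
      have := mul_le_mul_of_nonneg_left this (by linarith : 0 ≤ 3 * φ ^ 2 - 1)
      linarith [h1.1, hX1.2]
    · by_contra hn
      have : (3 : ℝ) ≤ r := by exact_mod_cast (by omega : 3 ≤ r)
      have := mul_le_mul_of_nonneg_left this (by linarith : 0 ≤ 3 * φ ^ 2 - 1)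
      linarith [h1.2, hX1.1]
  have hr' := abs_le.1 hr
  have r1 : (-2 : ℝ) ≤ r := by exact_mod_cast hr'.1
  have r2 : (r : ℝ) ≤ 2 := by exact_mod_cast hr'.2
  have e3 : (p + q * φ + r * φ ^ 2) - X = 3 / 2 * φ * q + (3 * φ ^ 2 - 2) / 2 * r := by
    rw [hX]; ring
  have bnd : ∀ a x B X : ℝ, 0 ≤ a → a ≤ B → -X ≤ x → x ≤ X → a * x ≤ B * X ∧ -(B * X) ≤ a * x := by
    intro a x B X i1 i2 i3 i4
    constructor <;> nlinarith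
  have u1 := (bnd ((3 * φ ^ 2 - 2) / 2) r (1635 / 1000) 2 (by linarith) (by linarith) r1 r2).1
  have u2 := (bnd ((3 * φ ^ 2 - 2) / 2) r (1635 / 1000) 2 (by linarith) (by linarith) r1 r2).2
  have hq : |q| ≤ 3 := by
    rw [abs_le]
    constructor
    · by_contra hn
      have : (q : ℝ) ≤ -4 := by exact_mod_cast (by omega : q ≤ -4)
      have := mul_le_mul_of_nonneg_left this (by linarith : 0 ≤ φ)
      linarith [h1.1, hX1.2]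
    · by_contra hn
      have : (4 : ℝ) ≤ q := by exact_mod_cast (by omega : 4 ≤ q)
      have := mul_le_mul_of_nonneg_left this (by linarith : 0 ≤ φ)
      linarith [h1.2, hX1.1]
  have hq' := abs_le.1 hq
  have q1 : (-3 : ℝ) ≤ q := by exact_mod_cast hq'.1
  have q2 : (q : ℝ) ≤ 3 := by exact_mod_cast hq'.2
  have v1 := (bnd φ q (133 / 100) 3 (by linarith) (by linarith) q1 q2).1
  have v2 := (bnd φ q (133 / 100) 3 (by linarith) (by linarith) q1 q2).2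
  have v3 := (bnd (2 - φ ^ 2) r (1 / 4) 2 (by linarith) (by linarith) r1 r2).1
  have v4 := (bnd (2 - φ ^ 2) r (1 / 4) 2 (by linarith) (by linarith) r1 r2).2
  refine ⟨?_, hq, hr⟩
  rw [abs_le]
  constructor
  · by_contra hn
    have : (p : ℝ) ≤ -5 := by exact_mod_cast (by omega : p ≤ -5)
    linarith [hX1.1]
  · by_contra hn
    have : (5 : ℝ) ≤ p := by exact_mod_cast (by omega : 5 ≤ p)
    linarith [hX1.2]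

def cand : List (ℤ × ℤ × ℤ) :=
  [(0, 0, 0), (1, 0, 0), (0, 1, 0), (0, 0, 1), (-1, 0, 1), (1, 1, 0), (2, 0, 0), (-1, 1, 0), (-1, -2, 1),
    (-2, -1, 1), (-1, -1, 1), (0, -1, 1), (-2, 0, 1), (-1, 1, 1), (-1, -1, 2)]

lemma enum_int (p q r : ℤ) (hp : |p| ≤ 4) (hq : |q| ≤ 3) (hr : |r| ≤ 2)
    (h1 : |10000 * p + 13247 * q + 17549 * r| ≤ 23255)
    (h2 : 10000 * (p ^ 2 - q ^ 2 + r ^ 2 + 2 * p * r - q * r) + 13247 * (r ^ 2 - p * q) +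
      17549 * (q ^ 2 - r ^ 2 - p * r) ≤ 43560) : (p, q, r) ∈ cand ∨ (-p, -q, -r) ∈ cand := by
  rw [abs_le] at hp hq hr
  obtain ⟨p1, p2⟩ := hp
  obtain ⟨q1, q2⟩ := hq
  obtain ⟨r1, r2⟩ := hr
  revert h1 h2
  interval_cases p <;> interval_cases q <;> interval_cases r <;> decide

lemma enum {φ : ℝ} (h : φ ^ 3 = φ + 1) (p q r : ℤ) (h1 : |p + q * φ + r * φ ^ 2| < φ + 1)
    (h2 : Nf φ p q r < 435 / 100) : (p, q, r) ∈ cand ∨ (-p, -q, -r) ∈ cand := by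
  obtain ⟨b1, b2, b3, b4⟩ := phi_bounds h
  obtain ⟨hp, hq, hr⟩ := box h p q r h1 h2
  have hp' := abs_le.1 hp
  have hq' := abs_le.1 hq
  have hr' := abs_le.1 hr
  have q1 : (-3 : ℝ) ≤ q := by exact_mod_cast hq'.1
  have q2 : (q : ℝ) ≤ 3 := by exact_mod_cast hq'.2
  have r1 : (-2 : ℝ) ≤ r := by exact_mod_cast hr'.1
  have r2 : (r : ℝ) ≤ 2 := by exact_mod_cast hr'.2
  apply enum_int p q r hp hq hr
  · rw [abs_lt] at h1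
    have a1 : |(q : ℝ) * (10000 * φ - 13247)| ≤ 3 := by
      rw [abs_le]; constructor <;> nlinarith
    have a2 : |(r : ℝ) * (10000 * φ ^ 2 - 17549)| ≤ 4 := by
      rw [abs_le]; constructor <;> nlinarith
    rw [abs_le] at a1 a2
    have : |(10000 * p + 13247 * q + 17549 * r : ℝ)| ≤ 23255 := by
      rw [abs_le]; constructor <;> nlinarith [h1.1, h1.2, a1.1, a1.2, a2.1, a2.2]
    exact_mod_cast this
  · have n1 : |r ^ 2 - p * q| ≤ 16 := by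
      rw [abs_le]; constructor <;> nlinarith [hp'.1, hp'.2, hq'.1, hq'.2, hr'.1, hr'.2]
    have n2 : |q ^ 2 - r ^ 2 - p * r| ≤ 21 := by
      rw [abs_le]; constructor <;> nlinarith [hp'.1, hp'.2, hq'.1, hq'.2, hr'.1, hr'.2]
    have n1' : |((r : ℝ) ^ 2 - p * q)| ≤ 16 := by exact_mod_cast n1
    have n2' : |((q : ℝ) ^ 2 - r ^ 2 - p * r)| ≤ 21 := by exact_mod_cast n2
    rw [abs_le] at n1' n2'
    generalize hA : ((r : ℝ) ^ 2 - p * q) = A at n1'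
    generalize hB : ((q : ℝ) ^ 2 - r ^ 2 - p * r) = B at n2'
    have a1 : -16 ≤ A * (10000 * φ - 13247) := by nlinarith [n1'.1, n1'.2]
    have a2 : -42 ≤ B * (10000 * φ ^ 2 - 17549) := by nlinarith [n2'.1, n2'.2]
    have e : Nf φ p q r = ((p : ℝ) ^ 2 - q ^ 2 + r ^ 2 + 2 * p * r - q * r) + φ * A + φ ^ 2 * B := by
      rw [← hA, ← hB]; simp only [Nf]; ring
    have : (10000 * (p ^ 2 - q ^ 2 + r ^ 2 + 2 * p * r - q * r) + 13247 * (r ^ 2 - p * q) +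
      17549 * (q ^ 2 - r ^ 2 - p * r) : ℝ) ≤ 43560 := by
      rw [hA, hB]; nlinarith
    exact_mod_cast this

section Cases
variable {φ : ℝ} (h : φ ^ 3 = φ + 1) {nrm : ℝ × ℝ → ℝ} (H : NormOK nrm)
include h H

lemma case0 (e : ℝ × ℝ) : nrm (stp φ e) ≤ nrm (comb φ e (2) (0) (0)) := by
  obtain ⟨b1, b2, b3, b4⟩ := phi_bounds h
  have := H.contr ((1/2 : ℝ)) ((0 : ℝ)) ((0 : ℝ)) ((1/2 : ℝ))
    (by refine ⟨?_, ?_, ?_, ?_⟩ <;> linarith)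
    (by refine ⟨?_, ?_, ?_, ?_⟩ <;> linarith)
    (by
      have : ((1/2 : ℝ)) ^ 2 + ((0 : ℝ)) ^ 2 + ((0 : ℝ)) ^ 2 + ((1/2 : ℝ)) ^ 2 = ((1/2 : ℝ)) := by
        linear_combination ((0 : ℝ)) * h
      rw [this]; linarith)
    (comb φ e (2) (0) (0))
  convert this using 2
  ext
  · simp only [comb, stp]; push_cast
    linear_combination (((0 : ℝ)) * e.1 + ((0 : ℝ)) * e.2) * h
  · simp only [comb, stp]; push_cast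
    linear_combination (((0 : ℝ)) * e.1 + ((0 : ℝ)) * e.2) * h

lemma case1 (e : ℝ × ℝ) : nrm (stp φ e) ≤ nrm (comb φ e (-1) (1) (0)) := by
  obtain ⟨b1, b2, b3, b4⟩ := phi_bounds h
  have := H.contr ((1 : ℝ) + (-1 : ℝ) * φ) ((1 : ℝ) + (-1 : ℝ) * φ) ((2 : ℝ) + (-1 : ℝ) * φ ^ 2) ((1 : ℝ) + (-1 : ℝ) * φ ^ 2)
    (by refine ⟨?_, ?_, ?_, ?_⟩ <;> linarith)
    (by refine ⟨?_, ?_, ?_, ?_⟩ <;> linarith)
    (by
      have : ((1 : ℝ) + (-1 : ℝ) * φ) ^ 2 + ((1 : ℝ) + (-1 : ℝ) * φ) ^ 2 + ((2 : ℝ) + (-1 : ℝ) * φ ^ 2) ^ 2 + ((1 : ℝ) + (-1 : ℝ) * φ ^ 2) ^ 2 = ((7 : ℝ) + (-2 : ℝ) * φ + (-2 : ℝ) * φ ^ 2) := by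
        linear_combination ((2 : ℝ) * φ) * h
      rw [this]; linarith)
    (comb φ e (-1) (1) (0))
  convert this using 2
  ext
  · simp only [comb, stp]; push_cast
    linear_combination (((1 : ℝ) * φ) * e.1 + ((-1 : ℝ)) * e.2) * h
  · simp only [comb, stp]; push_cast
    linear_combination (((1 : ℝ) * φ + (1 : ℝ) * φ ^ 2) * e.1 + ((-1 : ℝ) + (-1 : ℝ) * φ) * e.2) * h

lemma case2 (e : ℝ × ℝ) : nrm (stp φ (stp φ (stp φ e))) ≤ nrm (comb φ e (-1) (-2) (1)) := by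
  obtain ⟨b1, b2, b3, b4⟩ := phi_bounds h
  have := H.contr ((-1/7 : ℝ) + (3/7 : ℝ) * φ) ((-3/7 : ℝ) + (2/7 : ℝ) * φ) ((-5/7 : ℝ) + (3/7 : ℝ) * φ ^ 2) ((-1/7 : ℝ) + (2/7 : ℝ) * φ ^ 2)
    (by refine ⟨?_, ?_, ?_, ?_⟩ <;> linarith)
    (by refine ⟨?_, ?_, ?_, ?_⟩ <;> linarith)
    (by
      have : ((-1/7 : ℝ) + (3/7 : ℝ) * φ) ^ 2 + ((-3/7 : ℝ) + (2/7 : ℝ) * φ) ^ 2 + ((-5/7 : ℝ) + (3/7 : ℝ) * φ ^ 2) ^ 2 + ((-1/7 : ℝ) + (2/7 : ℝ) * φ ^ 2) ^ 2 = ((36/49 : ℝ) + (-5/49 : ℝ) * φ + (-8/49 : ℝ) * φ ^ 2) := by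
        linear_combination ((13/49 : ℝ) * φ) * h
      rw [this]; linarith)
    (comb φ e (-1) (-2) (1))
  convert this using 2
  ext
  · simp only [comb, stp]; push_cast
    linear_combination (((2/7 : ℝ) + (1/7 : ℝ) * φ) * e.1 + ((-1/7 : ℝ) + (-2/7 : ℝ) * φ) * e.2) * h
  · simp only [comb, stp]; push_cast
    linear_combination (((3/7 : ℝ) + (1/7 : ℝ) * φ ^ 2) * e.1 + ((2/7 : ℝ) + (-4/7 : ℝ) * φ + (-2/7 : ℝ) * φ ^ 2) * e.2) * h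

lemma case3 (e : ℝ × ℝ) : nrm (e) ≤ nrm (comb φ e (-2) (-1) (1)) := by
  obtain ⟨b1, b2, b3, b4⟩ := phi_bounds h
  have := H.contr ((1/5 : ℝ) + (2/5 : ℝ) * φ) ((-2/5 : ℝ) + (1/5 : ℝ) * φ) ((-3/5 : ℝ) + (2/5 : ℝ) * φ ^ 2) ((1/5 : ℝ) + (1/5 : ℝ) * φ ^ 2)
    (by refine ⟨?_, ?_, ?_, ?_⟩ <;> linarith)
    (by refine ⟨?_, ?_, ?_, ?_⟩ <;> linarith)
    (by
      have : ((1/5 : ℝ) + (2/5 : ℝ) * φ) ^ 2 + ((-2/5 : ℝ) + (1/5 : ℝ) * φ) ^ 2 + ((-3/5 : ℝ) + (2/5 : ℝ) * φ ^ 2) ^ 2 + ((1/5 : ℝ) + (1/5 : ℝ) * φ ^ 2) ^ 2 = ((3/5 : ℝ) + (1/5 : ℝ) * φ) := by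
        linear_combination ((1/5 : ℝ) * φ) * h
      rw [this]; linarith)
    (comb φ e (-2) (-1) (1))
  convert this using 2
  ext
  · simp only [comb, stp]; push_cast
    linear_combination (((-4/5 : ℝ) + (-1/5 : ℝ) * φ) * e.1 + ((1/5 : ℝ) + (-1/5 : ℝ) * φ) * e.2) * h
  · simp only [comb, stp]; push_cast
    linear_combination (((2/5 : ℝ) + (-1/5 : ℝ) * φ + (-1/5 : ℝ) * φ ^ 2) * e.1 + ((-3/5 : ℝ) + (-1/5 : ℝ) * φ + (-1/5 : ℝ) * φ ^ 2) * e.2) * h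

lemma case4 (e : ℝ × ℝ) : nrm (stp φ (stp φ (stp φ e))) ≤ nrm (comb φ e (-1) (-1) (1)) := by
  obtain ⟨b1, b2, b3, b4⟩ := phi_bounds h
  have := H.contr ((-1 : ℝ) + (1 : ℝ) * φ) ((-1 : ℝ) + (1 : ℝ) * φ) ((-2 : ℝ) + (1 : ℝ) * φ ^ 2) ((-1 : ℝ) + (1 : ℝ) * φ ^ 2)
    (by refine ⟨?_, ?_, ?_, ?_⟩ <;> linarith)
    (by refine ⟨?_, ?_, ?_, ?_⟩ <;> linarith)
    (by
      have : ((-1 : ℝ) + (1 : ℝ) * φ) ^ 2 + ((-1 : ℝ) + (1 : ℝ) * φ) ^ 2 + ((-2 : ℝ) + (1 : ℝ) * φ ^ 2) ^ 2 + ((-1 : ℝ) + (1 : ℝ) * φ ^ 2) ^ 2 = ((7 : ℝ) + (-2 : ℝ) * φ + (-2 : ℝ) * φ ^ 2) := by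
        linear_combination ((2 : ℝ) * φ) * h
      rw [this]; linarith)
    (comb φ e (-1) (-1) (1))
  convert this using 2
  ext
  · simp only [comb, stp]; push_cast
    linear_combination (((1 : ℝ)) * e.1 + ((-1 : ℝ) * φ) * e.2) * h
  · simp only [comb, stp]; push_cast
    linear_combination (((1 : ℝ)) * e.1 + ((1 : ℝ) + (-1 : ℝ) * φ + (-1 : ℝ) * φ ^ 2) * e.2) * h

lemma case5 (e : ℝ × ℝ) : nrm (stp φ (stp φ e)) ≤ nrm (comb φ e (0) (-1) (1)) := by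
  obtain ⟨b1, b2, b3, b4⟩ := phi_bounds h
  have := H.contr ((1 : ℝ) + (-1 : ℝ) * φ) ((1 : ℝ) + (-1 : ℝ) * φ) ((2 : ℝ) + (-1 : ℝ) * φ ^ 2) ((1 : ℝ) + (-1 : ℝ) * φ ^ 2)
    (by refine ⟨?_, ?_, ?_, ?_⟩ <;> linarith)
    (by refine ⟨?_, ?_, ?_, ?_⟩ <;> linarith)
    (by
      have : ((1 : ℝ) + (-1 : ℝ) * φ) ^ 2 + ((1 : ℝ) + (-1 : ℝ) * φ) ^ 2 + ((2 : ℝ) + (-1 : ℝ) * φ ^ 2) ^ 2 + ((1 : ℝ) + (-1 : ℝ) * φ ^ 2) ^ 2 = ((7 : ℝ) + (-2 : ℝ) * φ + (-2 : ℝ) * φ ^ 2) := by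
        linear_combination ((2 : ℝ) * φ) * h
      rw [this]; linarith)
    (comb φ e (0) (-1) (1))
  convert this using 2
  ext
  · simp only [comb, stp]; push_cast
    linear_combination (((-1 : ℝ)) * e.1 + ((1 : ℝ) * φ) * e.2) * h
  · simp only [comb, stp]; push_cast
    linear_combination (((-1 : ℝ) + (-1 : ℝ) * φ) * e.1 + ((1 : ℝ) * φ + (1 : ℝ) * φ ^ 2) * e.2) * h

lemma case6 (e : ℝ × ℝ) : nrm (e) ≤ nrm (comb φ e (-2) (0) (1)) := by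
  obtain ⟨b1, b2, b3, b4⟩ := phi_bounds h
  have := H.contr ((-1 : ℝ) + (1 : ℝ) * φ) ((-1 : ℝ) + (1 : ℝ) * φ) ((-2 : ℝ) + (1 : ℝ) * φ ^ 2) ((-1 : ℝ) + (1 : ℝ) * φ ^ 2)
    (by refine ⟨?_, ?_, ?_, ?_⟩ <;> linarith)
    (by refine ⟨?_, ?_, ?_, ?_⟩ <;> linarith)
    (by
      have : ((-1 : ℝ) + (1 : ℝ) * φ) ^ 2 + ((-1 : ℝ) + (1 : ℝ) * φ) ^ 2 + ((-2 : ℝ) + (1 : ℝ) * φ ^ 2) ^ 2 + ((-1 : ℝ) + (1 : ℝ) * φ ^ 2) ^ 2 = ((7 : ℝ) + (-2 : ℝ) * φ + (-2 : ℝ) * φ ^ 2) := by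
        linear_combination ((2 : ℝ) * φ) * h
      rw [this]; linarith)
    (comb φ e (-2) (0) (1))
  convert this using 2
  ext
  · simp only [comb, stp]; push_cast
    linear_combination (((-1 : ℝ) * φ) * e.1 + ((1 : ℝ) + (-1 : ℝ) * φ) * e.2) * h
  · simp only [comb, stp]; push_cast
    linear_combination (((1 : ℝ) + (-1 : ℝ) * φ + (-1 : ℝ) * φ ^ 2) * e.1 + ((1 : ℝ) + (-1 : ℝ) * φ ^ 2) * e.2) * h

lemma case7 (e : ℝ × ℝ) : nrm (stp φ e) ≤ nrm (comb φ e (-1) (1) (1)) := by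
  obtain ⟨b1, b2, b3, b4⟩ := phi_bounds h
  have := H.contr ((-1/5 : ℝ) + (-2/5 : ℝ) * φ) ((2/5 : ℝ) + (-1/5 : ℝ) * φ) ((3/5 : ℝ) + (-2/5 : ℝ) * φ ^ 2) ((-1/5 : ℝ) + (-1/5 : ℝ) * φ ^ 2)
    (by refine ⟨?_, ?_, ?_, ?_⟩ <;> linarith)
    (by refine ⟨?_, ?_, ?_, ?_⟩ <;> linarith)
    (by
      have : ((-1/5 : ℝ) + (-2/5 : ℝ) * φ) ^ 2 + ((2/5 : ℝ) + (-1/5 : ℝ) * φ) ^ 2 + ((3/5 : ℝ) + (-2/5 : ℝ) * φ ^ 2) ^ 2 + ((-1/5 : ℝ) + (-1/5 : ℝ) * φ ^ 2) ^ 2 = ((3/5 : ℝ) + (1/5 : ℝ) * φ) := by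
        linear_combination ((1/5 : ℝ) * φ) * h
      rw [this]; linarith)
    (comb φ e (-1) (1) (1))
  convert this using 2
  ext
  · simp only [comb, stp]; push_cast
    linear_combination (((-1/5 : ℝ) + (3/5 : ℝ) * φ) * e.1 + ((-3/5 : ℝ) + (1/5 : ℝ) * φ) * e.2) * h
  · simp only [comb, stp]; push_cast
    linear_combination (((-2/5 : ℝ) + (3/5 : ℝ) * φ ^ 2) * e.1 + ((-1/5 : ℝ) + (-1/5 : ℝ) * φ + (1/5 : ℝ) * φ ^ 2) * e.2) * h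

lemma case8 (e : ℝ × ℝ) : nrm (stp φ (stp φ (stp φ e))) ≤ nrm (comb φ e (-1) (-1) (2)) := by
  obtain ⟨b1, b2, b3, b4⟩ := phi_bounds h
  have := H.contr ((4/5 : ℝ) + (-2/5 : ℝ) * φ) ((2/5 : ℝ) + (-1/5 : ℝ) * φ) ((3/5 : ℝ) + (-2/5 : ℝ) * φ ^ 2) ((4/5 : ℝ) + (-1/5 : ℝ) * φ ^ 2)
    (by refine ⟨?_, ?_, ?_, ?_⟩ <;> linarith)
    (by refine ⟨?_, ?_, ?_, ?_⟩ <;> linarith)
    (by
      have : ((4/5 : ℝ) + (-2/5 : ℝ) * φ) ^ 2 + ((2/5 : ℝ) + (-1/5 : ℝ) * φ) ^ 2 + ((3/5 : ℝ) + (-2/5 : ℝ) * φ ^ 2) ^ 2 + ((4/5 : ℝ) + (-1/5 : ℝ) * φ ^ 2) ^ 2 = ((9/5 : ℝ) + (-3/5 : ℝ) * φ + (-2/5 : ℝ) * φ ^ 2) := by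
        linear_combination ((1/5 : ℝ) * φ) * h
      rw [this]; linarith)
    (comb φ e (-1) (-1) (2))
  convert this using 2
  ext
  · simp only [comb, stp]; push_cast
    linear_combination (((-2/5 : ℝ) + (3/5 : ℝ) * φ) * e.1 + ((-3/5 : ℝ) + (2/5 : ℝ) * φ) * e.2) * h
  · simp only [comb, stp]; push_cast
    linear_combination (((-4/5 : ℝ) + (-1/5 : ℝ) * φ + (3/5 : ℝ) * φ ^ 2) * e.1 + ((-1/5 : ℝ) + (1/5 : ℝ) * φ + (2/5 : ℝ) * φ ^ 2) * e.2) * h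

omit h in
lemma nrm_neg (u v : ℝ) : nrm (-u, -v) = nrm (u, v) := by
  have := H.smul (-1) u v
  simpa using this

omit h in
lemma nrm_comb_neg (e : ℝ × ℝ) (p q r : ℤ) :
    nrm (comb φ e (-p) (-q) (-r)) = nrm (comb φ e p q r) := by
  simp only [comb]
  rw [← nrm_neg H]
  congr 1
  ext <;> push_cast <;> ring

lemma cand_ok (e : ℝ × ℝ) (p q r : ℤ) (hc : (p, q, r) ∈ cand) (h0 : (p, q, r) ≠ (0, 0, 0))
    (h1 : |p + q * φ + r * φ ^ 2| < φ + 1) :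
    nrm e ≤ nrm (comb φ e p q r) ∨ nrm (stp φ e) ≤ nrm (comb φ e p q r) ∨
    nrm (stp φ (stp φ e)) ≤ nrm (comb φ e p q r) ∨
    nrm (stp φ (stp φ (stp φ e))) ≤ nrm (comb φ e p q r) := by
  obtain ⟨b1, b2, b3, b4⟩ := phi_bounds h
  simp only [cand, List.mem_cons, Prod.mk.injEq, List.not_mem_nil, or_false] at hc
  rcases hc with ⟨rfl, rfl, rfl⟩ | ⟨rfl, rfl, rfl⟩ | ⟨rfl, rfl, rfl⟩ | ⟨rfl, rfl, rfl⟩ |
    ⟨rfl, rfl, rfl⟩ | ⟨rfl, rfl, rfl⟩ | ⟨rfl, rfl, rfl⟩ | ⟨rfl, rfl, rfl⟩ | ⟨rfl, rfl, rfl⟩ |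
    ⟨rfl, rfl, rfl⟩ | ⟨rfl, rfl, rfl⟩ | ⟨rfl, rfl, rfl⟩ | ⟨rfl, rfl, rfl⟩ | ⟨rfl, rfl, rfl⟩ |
    ⟨rfl, rfl, rfl⟩
  · exact absurd rfl h0
  · right; left; apply le_of_eq; congr 1; simp [comb]
  · right; right; left; apply le_of_eq; congr 1; simp [comb]
  · right; right; right; apply le_of_eq; congr 1; simp [comb]
  · left; apply le_of_eq; congr 1
    ext
    · simp only [comb, stp]; push_cast
      linear_combination (-e.1) * h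
    · simp only [comb, stp]; push_cast
      linear_combination (-e.2) * h
  · exfalso
    push_cast at h1
    rw [abs_lt] at h1
    linarith [h1.2]
  · exact Or.inr (Or.inl (case0 h H e))
  · exact Or.inr (Or.inl (case1 h H e))
  · exact Or.inr (Or.inr (Or.inr (case2 h H e)))
  · exact Or.inl (case3 h H e)
  · exact Or.inr (Or.inr (Or.inr (case4 h H e)))
  · exact Or.inr (Or.inr (Or.inl (case5 h H e)))
  · exact Or.inl (case6 h H e)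
  · exact Or.inr (Or.inl (case7 h H e))
  · exact Or.inr (Or.inr (Or.inr (case8 h H e)))

lemma finiteK (e : ℝ × ℝ) (p q r : ℤ) (h0 : (p, q, r) ≠ (0, 0, 0))
    (h1 : |p + q * φ + r * φ ^ 2| < φ + 1)
    (hB : ∃ f : ℝ × ℝ, (f = e ∨ f = stp φ e ∨ f = stp φ (stp φ e) ∨ f = stp φ (stp φ (stp φ e))) ∧
      f.1 ^ 2 + f.2 ^ 2 ≤ 187 / 100 * Qf φ (stp φ (stp φ (stp φ e)))) :
    nrm e ≤ nrm (comb φ e p q r) ∨ nrm (stp φ e) ≤ nrm (comb φ e p q r) ∨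
    nrm (stp φ (stp φ e)) ≤ nrm (comb φ e p q r) ∨
    nrm (stp φ (stp φ (stp φ e))) ≤ nrm (comb φ e p q r) := by
  obtain ⟨b1, b2, b3, b4⟩ := phi_bounds h
  by_cases hN : Nf φ p q r < 435 / 100
  · rcases enum h p q r h1 hN with hc | hc
    · exact cand_ok h H e p q r hc h0 h1
    · rw [← nrm_comb_neg H]
      refine cand_ok h H e _ _ _ hc ?_ ?_
      · intro hh
        simp only [Prod.mk.injEq, neg_eq_zero] at hh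
        exact h0 (by rw [hh.1, hh.2.1, hh.2.2])
      · rw [← abs_neg]; convert h1 using 2; push_cast; ring
  · push Not at hN
    obtain ⟨f, hf, hf2⟩ := hB
    have key : nrm f ≤ nrm (comb φ e p q r) := by
      have k1 := Qf_le h (comb φ e p q r) _ (H.fst _) (H.snd _)
      rw [Qf_comb h] at k1
      have k2 := Qf_stp h (stp φ e)
      have k3 := Qf_stp h (stp φ (stp φ e))
      have k4 := H.sq f
      have k5 : 0 ≤ Qf φ (stp φ (stp φ (stp φ e))) := by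
        have := Qf_nonneg h (stp φ (stp φ (stp φ e)))
        nlinarith [sq_nonneg (stp φ (stp φ (stp φ e))).1, sq_nonneg (stp φ (stp φ (stp φ e))).2]
      generalize Qf φ (stp φ (stp φ (stp φ e))) = Q3 at *
      have k6 : Qf φ (stp φ e) = φ ^ 2 * Q3 := by rw [← k2, ← k3]; ring
      rw [k6] at k1
      have k7 : 435 / 100 * (17548 / 10000 * Q3) ≤ Nf φ p q r * (φ ^ 2 * Q3) := by
        apply mul_le_mul hN (mul_le_mul_of_nonneg_right b3.le k5) (by positivity) (by linarith)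
      have k8 : 0 ≤ nrm (comb φ e p q r) := (abs_nonneg _).trans (H.fst _)
      exact (abs_le_of_sq_le_sq' (by linarith) k8).2
    rcases hf with rfl | rfl | rfl | rfl
    · exact Or.inl key
    · exact Or.inr (Or.inl key)
    · exact Or.inr (Or.inr (Or.inl key))
    · exact Or.inr (Or.inr (Or.inr key))

end Cases

end Pool.Agent.MP_8d3206_nt
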