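import Mathlib
import Pool.Agent.MP_8d3206_nt.Defs

namespace Pool.Agent.MP_8d3206_nt

open Real

/-- The linear form on which the unit `φ` acts by multiplication. -/
def ht (φ : ℝ) (z : ℤ × ℤ × ℤ) : ℝ := z.2.2 + φ * z.2.1 + (φ ^ 2 - 1) * z.1

/-- The rotation by the angle `t` for the form `v₁ ^ 2 - φ ^ 2 v₁ v₂ + φ v₂ ^ 2`. -/
noncomputable def rot (φ t : ℝ) (v : ℝ × ℝ) : ℝ × ℝ :=
  cos t • v + (sin t / √(3 * φ ^ 2 - 4)) • (2 * v.2 - φ * v.1, φ * v.2 - 2 * (φ ^ 2 - 1) * v.1)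

/-- `z` is a minimal point for the height and the rotated norm. -/
def RotMin (nrm : ℝ × ℝ → ℝ) (φ t : ℝ) (z : ℤ × ℤ × ℤ) : Prop :=
  z ≠ 0 ∧ ∀ w : ℤ × ℤ × ℤ, |ht φ w| ≤ |ht φ z| →
    nrm (rot φ t (errVec (φ, φ ^ 2) w)) ≤ nrm (rot φ t (errVec (φ, φ ^ 2) z)) →
    w = 0 ∨ w = z ∨ w = -z

/-- The number of minimal points of height in `[1, φ)`. -/
noncomputable def minCount (nrm : ℝ × ℝ → ℝ) (φ t : ℝ) : ℕ :=
  {z : ℤ × ℤ × ℤ | 1 ≤ ht φ z ∧ ht φ z < φ ∧ RotMin nrm φ t z}.ncard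

end Pool.Agent.MP_8d3206_nt
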