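import Mathlib

namespace Pool.Agent.MP_8d3206_nt

open Real Filter Topology

lemma loc_GLim {X : ℕ → ℕ} (hX : Tendsto X atTop atTop) {n₀ m : ℕ} (h : X n₀ ≤ m) :
    ∃ n, n₀ ≤ n ∧ X n ≤ m ∧ m < X (n + 1) := by
  by_contra hn
  push Not at hn
  have h1 : ∀ n, n₀ ≤ n → X n ≤ m := fun n hn' => by
    induction n, hn' using Nat.le_induction with
    | base => exact h
    | succ n h1 ih => exact hn n h1 ih
  obtain ⟨n, h2, h3⟩ := ((eventually_ge_atTop n₀).and (hX.eventually_gt_atTop m)).exists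
  exact not_lt.2 (h1 n h2) h3

lemma liminf_nth (P : ℕ → Prop) [DecidablePred P] (X a : ℕ → ℕ) (B : ℕ) {L : ℝ} (hL : 0 < L)
    (hX : Tendsto (fun n : ℕ => log (X (n + 1)) / n) atTop (𝓝 L))
    (hXt : Tendsto X atTop atTop) (hm : ∀ᶠ n in atTop, X n ≤ X (n + 1))
    (hs : ∀ᶠ n in atTop, Nat.count P (X (n + 1)) = Nat.count P (X n) + a n) (hB : ∀ n, a n ≤ B)
    (hκ : 0 < limsup (fun n : ℕ => (∑ k ∈ Finset.range n, (a k : ℝ)) / n) atTop) :
    liminf (fun ν : ℕ => (Nat.nth P (ν - 1) : ℝ) ^ ((1 : ℝ) / ν)) atTop =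
      exp (L / limsup (fun n : ℕ => (∑ k ∈ Finset.range n, (a k : ℝ)) / n) atTop) := by
  set u : ℕ → ℝ := fun n => (∑ k ∈ Finset.range n, (a k : ℝ)) / n with hu
  set κ := limsup u atTop
  have u0 : ∀ n, 0 ≤ u n := fun n => by positivity
  have uB : ∀ n, u n ≤ B := fun n => by
    refine div_le_of_le_mul₀ (Nat.cast_nonneg n) (Nat.cast_nonneg B) ?_
    refine (Finset.sum_le_card_nsmul _ _ (B : ℝ) fun k _ => by exact_mod_cast hB k).trans ?_
    simp [mul_comm]
  obtain ⟨K, hK⟩ : ∃ K : ℝ, ∀ᶠ n in atTop,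
      (Nat.count P (X n) : ℝ) = ∑ k ∈ Finset.range n, (a k : ℝ) + K := by
    obtain ⟨n₀, h0⟩ := eventually_atTop.1 hs
    refine ⟨Nat.count P (X n₀) - ∑ k ∈ Finset.range n₀, (a k : ℝ),
      eventually_atTop.2 ⟨n₀, fun n hn => ?_⟩⟩
    induction n, hn using Nat.le_induction with
    | base => ring
    | succ n h1 ih => rw [h0 n h1, Finset.sum_range_succ, Nat.cast_add, ih]; ring
  have hK0 : Tendsto (fun n : ℕ => K / n) atTop (𝓝 0) := tendsto_const_div_atTop_nhds_zero_nat K
  have hg : ∀ᶠ n : ℕ in atTop, (Nat.count P (X n) : ℝ) = (u n + K / n) * n := by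
    filter_upwards [hK, eventually_gt_atTop 0] with n h1 h2
    have : (n : ℝ) ≠ 0 := by exact_mod_cast h2.ne'
    rw [h1, hu]
    field_simp
  have fr : ∀ b < κ, ∃ᶠ n : ℕ in atTop, b * n ≤ Nat.count P (X n) := fun b hb => by
    have h1 := frequently_lt_of_lt_limsup (isCoboundedUnder_le_of_le atTop u0)
      (show (b + κ) / 2 < κ by linarith)
    refine (h1.and_eventually (hg.and ((tendsto_order.1 hK0).1 ((b - κ) / 2)
      (by linarith)))).mono fun n ⟨h2, h3, h4⟩ => ?_
    rw [h3]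
    exact mul_le_mul_of_nonneg_right (by linarith) (Nat.cast_nonneg n)
  have ev : ∀ b, κ < b → ∀ᶠ n : ℕ in atTop, (Nat.count P (X n) : ℝ) ≤ b * n := fun b hb => by
    filter_upwards [eventually_lt_of_limsup_lt (show κ < (b + κ) / 2 by linarith)
      (isBoundedUnder_of ⟨_, uB⟩), hg, (tendsto_order.1 hK0).2 ((b - κ) / 2) (by linarith)]
      with n h2 h3 h4
    rw [h3]
    exact mul_le_mul_of_nonneg_right (by linarith) (Nat.cast_nonneg n)
  have hP : (Set.ofPred P).Infinite := fun hf => by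
    obtain ⟨n, h1, h2⟩ := ((fr (κ / 2) (by linarith)).and_eventually
      ((tendsto_natCast_atTop_atTop.const_mul_atTop (half_pos hκ)).eventually_gt_atTop
        (hf.toFinset.card : ℝ))).exists
    have : (Nat.count P (X n) : ℝ) ≤ hf.toFinset.card := by
      exact_mod_cast Nat.count_le_card hf (X n)
    linarith
  have hM : Tendsto (fun ν : ℕ => Nat.nth P (ν - 1)) atTop atTop :=
    (Nat.nth_strictMono hP).tendsto_atTop.comp (tendsto_sub_atTop_nat 1)
  have hc : Tendsto (fun n => Nat.count P (X n)) atTop atTop := by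
    refine tendsto_atTop.2 fun b => (hXt.eventually_ge_atTop (Nat.nth P b)).mono fun n hn => ?_
    rw [← Nat.count_nth_of_infinite hP b]
    exact Nat.count_monotone P hn
  have up : ∀ β, L / κ < β →
      ∃ᶠ ν : ℕ in atTop, (Nat.nth P (ν - 1) : ℝ) ^ ((1 : ℝ) / ν) ≤ exp β := fun β hβ => by
    have β0 : 0 < β := (div_pos hL hκ).trans hβ
    obtain ⟨k, k1, k2⟩ := exists_between (show L / β < κ by
      rw [div_lt_iff₀ hκ] at hβ; rw [div_lt_iff₀ β0]; linarith)
    rw [div_lt_iff₀ β0] at k1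
    refine hc.frequently (((fr k k2).and_eventually (((tendsto_order.1 hX).2 _ k1).and (hm.and
      ((hc.eventually_gt_atTop 0).and ((hXt.eventually_gt_atTop 0).and
        (eventually_gt_atTop 0)))))).mono fun n ⟨h1, h2, h3, h4, h5, h6⟩ => ?_)
    have h7 : Nat.nth P (Nat.count P (X n) - 1) < X n := Nat.nth_lt_of_lt_count (by omega)
    have h8 : (0 : ℝ) < X (n + 1) := by exact_mod_cast h5.trans_le h3
    have h9 : (0 : ℝ) < Nat.count P (X n) := by exact_mod_cast h4
    refine (rpow_le_rpow (Nat.cast_nonneg _) (Nat.cast_le.2 (h7.le.trans h3))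
      (by positivity)).trans ?_
    rw [rpow_def_of_pos h8, exp_le_exp, mul_one_div, div_le_iff₀ h9]
    rw [div_lt_iff₀ (by exact_mod_cast h6)] at h2
    nlinarith
  have lo : ∀ β, 0 < β → β < L / κ →
      ∀ᶠ ν : ℕ in atTop, exp β ≤ (Nat.nth P (ν - 1) : ℝ) ^ ((1 : ℝ) / ν) := fun β β0 hβ => by
    obtain ⟨k, k1, k2⟩ := exists_between (show κ < L / β by
      rw [lt_div_iff₀ hκ] at hβ; rw [lt_div_iff₀ β0]; linarith)
    rw [lt_div_iff₀ β0] at k2
    have t1 : Tendsto (fun n : ℕ => log (X (n + 1)) / n - 2 * (k * β) / n) atTop (𝓝 (L - 0)) :=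
      hX.sub (tendsto_const_div_atTop_nhds_zero_nat _)
    have e1 : ∀ᶠ n : ℕ in atTop, β * Nat.count P (X (n + 2)) ≤ log (X (n + 1)) ∧ 0 < X (n + 1) := by
      filter_upwards [(tendsto_add_atTop_nat 2).eventually (ev k k1),
        (tendsto_order.1 t1).1 (k * β) (by linarith), eventually_gt_atTop 0,
        (tendsto_add_atTop_nat 1).eventually (hXt.eventually_gt_atTop 0)] with n h1 h2 h3 h4
      refine ⟨?_, h4⟩
      rw [← sub_div, lt_div_iff₀ (by exact_mod_cast h3)] at h2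
      push_cast at h1
      nlinarith
    obtain ⟨n₀, h0⟩ := eventually_atTop.1 e1
    filter_upwards [hM.eventually_ge_atTop (X (n₀ + 1)), eventually_gt_atTop 0] with ν h1 h2
    obtain ⟨n, n1, n2, n3⟩ := loc_GLim hXt h1
    obtain ⟨n, rfl⟩ : ∃ j, n = j + 1 := ⟨n - 1, by omega⟩
    obtain ⟨h3, h4⟩ := h0 n (by omega)
    have h5 : ν ≤ Nat.count P (X (n + 2)) := by
      have := Nat.count_monotone P (Nat.succ_le_of_lt n3)
      rw [Nat.count_nth_succ_of_infinite hP, Nat.sub_add_cancel h2] at this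
      exact this
    have h6 : (ν : ℝ) ≤ Nat.count P (X (n + 2)) := by exact_mod_cast h5
    have h7 : (0 : ℝ) < X (n + 1) := by exact_mod_cast h4
    refine le_trans ?_ (rpow_le_rpow h7.le (Nat.cast_le.2 n2) (by positivity))
    rw [rpow_def_of_pos h7, exp_le_exp, mul_one_div, le_div_iff₀ (by exact_mod_cast h2)]
    nlinarith
  have q := div_pos hL hκ
  refine le_antisymm (le_of_forall_gt_imp_ge_of_dense fun b hb => ?_)
    (le_of_forall_lt_imp_le_of_dense fun b hb => ?_)
  · have b0 := (exp_pos _).trans hb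
    refine liminf_le_of_frequently_le ?_ (isBoundedUnder_of ⟨0, fun ν => by positivity⟩)
    simpa only [exp_log b0] using up (log b) ((lt_log_iff_exp_lt b0).2 hb)
  · have cb := IsCoboundedUnder.of_frequently_le (up (L / κ + 1) (by linarith))
    rcases le_or_gt b (exp (L / κ / 2)) with h1 | h1
    · exact h1.trans (le_liminf_of_le cb (lo _ (by linarith) (by linarith)))
    · have b0 := (exp_pos _).trans h1
      have h2 := (lt_log_iff_exp_lt b0).2 h1
      have := le_liminf_of_le cb (lo (log b) (by linarith) ((log_lt_iff_lt_exp b0).2 hb))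
      rwa [exp_log b0] at this

end Pool.Agent.MP_8d3206_nt
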