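import Mathlib
import Pool.Agent.MP_8d3206_nt.Defs
import Pool.Agent.MP_8d3206_nt.Main

namespace Pool.Agent.Results.MP_8d3206_nt.ExactGrowth

open Pool.Agent.MP_8d3206_nt Real

/-- Exact value of `G(φ, φ²)` for the sup-norm and the Euclidean norm; neither equals `φ`. -/
theorem result (φ : ℝ) (h : φ ^ 3 = φ + 1) :
    growth (fun v => max |v.1| |v.2|) (φ, φ ^ 2) =
      φ ^ (π / arctan (√(3 * φ ^ 2 - 4) / (3 * φ - 2 * φ ^ 2))) ∧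
    growth (fun v => √(v.1 ^ 2 + v.2 ^ 2)) (φ, φ ^ 2) =
      φ ^ (π / arctan (√(3 * φ ^ 2 - 4) /
        (φ + 2 * (√(3 * φ ^ 2 + φ - 2) - (φ ^ 2 + φ + 2)) / (2 * φ ^ 2 + 3 * φ)))) ∧
    growth (fun v => max |v.1| |v.2|) (φ, φ ^ 2) ≠ φ ∧
    growth (fun v => √(v.1 ^ 2 + v.2 ^ 2)) (φ, φ ^ 2) ≠ φ :=
  final φ h

end Pool.Agent.Results.MP_8d3206_nt.ExactGrowth
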